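import Pool.Agent.W2helper77.CB.Lower

/-!
# The mean height exceeds the mean length of the greedy path by a constant factor: assembly
-/

set_option autoImplicit false

namespace Pool.Agent.W2helper77.CB

open BinaryTree Finset Filter Topology Pool.Agent.R982.CBS

/-- the drift constant of the greedy path -/
noncomputable def s0 : ℝ := Real.pi ^ 2 / 12

lemma s0_pos : 0 < s0 := by unfold s0; positivity

lemma s0_le : s0 ≤ 1 := by
  unfold s0
  have := Real.pi_lt_d2
  have := Real.pi_pos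
  nlinarith

/-- the balanced splits -/
def Bal (N : ℕ) : Finset ℕ := Finset.Icc (N / 2) (N / 2 + N / 20)

lemma Bal_mass {N : ℕ} (hN : 10 ≤ N) : 1 / (10 * H N) ≤ ∑ i ∈ Bal N, W N i := by
  have hH := H_pos (by omega : 1 ≤ N)
  have h1 := mass_ge (N := N) (S := Bal N) (by
    intro i hi
    unfold Bal at hi
    rw [Finset.mem_Icc] at hi
    rw [mem_range]
    omega)
  refine le_trans ?_ h1
  have h2 : (Bal N).card = N / 20 + 1 := by
    unfold Bal
    rw [Nat.card_Icc]
    omega
  have h3 : N + 1 ≤ 20 * (N / 20 + 1) := by omega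
  have h4 : ((N : ℝ) + 1) / 20 ≤ ((Bal N).card : ℝ) := by
    rw [h2]
    have : ((N + 1 : ℕ) : ℝ) ≤ ((20 * (N / 20 + 1) : ℕ) : ℝ) := by exact_mod_cast h3
    push_cast at this ⊢
    linarith
  have h5 : 0 < 2 / (H N * ((N : ℝ) + 1)) := by positivity
  refine le_trans (le_of_eq ?_) (mul_le_mul_of_nonneg_right h4 h5.le)
  field_simp
  norm_num

lemma two_pow_le {N : ℕ} (hN : 1 ≤ Real.log N) {K : ℕ} (hK : (K : ℝ) ≤ H N / 64) :
    (2 : ℝ) ^ K ≤ √N := by
  have hN0 : (0 : ℝ) < N := by
    rcases Nat.eq_zero_or_pos N with h | h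
    · subst h
      norm_num at hN
    · exact_mod_cast h
  have h1 : H N ≤ 1 + Real.log N := by
    rw [← H_eq_harmonic]
    exact_mod_cast harmonic_le_one_add_log N
  have h2 : (2 : ℝ) ^ K ≤ Real.exp K := by
    rw [← Real.exp_one_pow]
    apply pow_le_pow_left₀ (by norm_num)
    have := Real.add_one_le_exp (1 : ℝ)
    linarith
  refine h2.trans ?_
  rw [Real.sqrt_eq_rpow, Real.rpow_def_of_pos hN0]
  apply Real.exp_le_exp.mpr
  linarith

lemma prob_ge {y : ℝ} (h0 : 0 ≤ y) (h1 : y ≤ 1) : y / 2 ≤ 1 - Real.exp (-y) := by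
  have h2 : Real.exp (-y) ≤ 1 / (1 + y) := by
    rw [Real.exp_neg, one_div]
    apply inv_anti₀ (by linarith)
    have := Real.add_one_le_exp y
    linarith
  have h3 : 1 / (1 + y) ≤ 1 - y / 2 := by
    rw [div_le_iff₀ (by linarith)]
    nlinarith
  linarith

/-- the gain at the balanced splits of a large clade -/
theorem gain_large {β C s : ℝ} (hβ : 1 / 2 ≤ β) {n1 : ℕ} (hn1 : 1 ≤ n1)
    (hs : ∀ u, n1 ≤ u → sg u ≤ s) (hβs : 2 * β * s ≤ 1 + 3 / 10 ^ 6) {N : ℕ}
    (hM : ∀ u, u < N → Phi β C u ≤ M u) (hN : 200 ≤ N) (hH : 128 ≤ H N)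
    (hlog : 1 ≤ Real.log N) (hsq : 4 * ((n1 : ℝ) + 2) ≤ √N) {i : ℕ} (hi : i ∈ Bal N) :
    Phi β C (big N i) + 6 / 10 ^ 5 * H N ≤ Z i (N - 1 - i) := by
  unfold Bal at hi
  rw [Finset.mem_Icc] at hi
  obtain ⟨hi1, hi2⟩ := hi
  have hbig : big N i = i := by
    unfold big
    exact max_eq_left (by omega)
  rw [hbig]
  set b := N - 1 - i with hb
  set K := ⌊H N / 64⌋₊ with hK
  have hK1 : (K : ℝ) ≤ H N / 64 := Nat.floor_le (by linarith)
  have hK2 : H N / 64 < K + 1 := Nat.lt_floor_add_one _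
  have hpow := two_pow_le hlog hK1
  have hN0 : (0 : ℝ) ≤ N := Nat.cast_nonneg N
  have hsqN : √(N : ℝ) * √(N : ℝ) = N := Real.mul_self_sqrt hN0
  have hsq0 : 0 ≤ √(N : ℝ) := Real.sqrt_nonneg _
  have hn1' : (1 : ℝ) ≤ n1 := by exact_mod_cast hn1
  have e1 : (2 : ℝ) ^ K * ((n1 : ℝ) + 1) ≤ N / 4 := by
    calc (2 : ℝ) ^ K * ((n1 : ℝ) + 1) ≤ √N * ((n1 : ℝ) + 1) :=
          mul_le_mul_of_nonneg_right hpow (by linarith)
      _ ≤ √N * (√N / 4) := mul_le_mul_of_nonneg_left (by linarith) hsq0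
      _ = N / 4 := by rw [mul_div_assoc', hsqN]
  have c1 : 2 ^ K * (n1 + 1) ≤ i + 1 := by
    have h1 : (N : ℝ) / 4 ≤ ((i + 1 : ℕ) : ℝ) := by
      have h2 : N ≤ 4 * (i + 1) := by omega
      have h3 : (N : ℝ) ≤ ((4 * (i + 1) : ℕ) : ℝ) := by exact_mod_cast h2
      push_cast at h3 ⊢
      linarith
    have h4 := e1.trans h1
    exact_mod_cast h4
  have c2 : 2 ^ K * 2 ≤ b + 1 := by
    have h1 : (N : ℝ) / 4 ≤ ((b + 1 : ℕ) : ℝ) := by
      have h2 : N ≤ 4 * (b + 1) := by omega
      have h3 : (N : ℝ) ≤ ((4 * (b + 1) : ℕ) : ℝ) := by exact_mod_cast h2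
      push_cast at h3 ⊢
      linarith
    have h5 : (2 : ℝ) ^ K * 2 ≤ (2 : ℝ) ^ K * ((n1 : ℝ) + 1) :=
      mul_le_mul_of_nonneg_left (by linarith) (by positivity)
    have h4 := (h5.trans e1).trans h1
    exact_mod_cast h4
  -- differences of harmonic numbers
  set u := 3 * i / 5 with hu
  have hub : u ≤ b := by omega
  have hb1 : 1 ≤ b := by omega
  have d1 : 1 / 4 ≤ H b - H u := by
    refine le_trans ?_ (H_sub_ge hub hb1)
    have h1 : 4 * u ≤ 3 * b := by omega
    have h2 : (4 : ℝ) * u ≤ 3 * b := by exact_mod_cast h1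
    have h3 : (0 : ℝ) < b := by exact_mod_cast hb1
    rw [div_le_div_iff₀ (by norm_num) h3]
    linarith
  have d2 : H N - 2 ≤ H b := by
    have h1 := H_sub_le (b := b) (N := N) (by omega)
    have h2 : ((N : ℝ) - b) / (b + 1) ≤ 2 := by
      rw [div_le_iff₀ (by positivity)]
      have h3 : N ≤ 3 * b + 2 := by omega
      have h4 : (N : ℝ) ≤ ((3 * b + 2 : ℕ) : ℝ) := by exact_mod_cast h3
      push_cast at h4
      linarith
    linarith
  have d3 : H b ≤ H i := H_mono (by omega)
  have d4 : H i ≤ H N := H_mono (by omega)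
  have d5 := H_nonneg u
  have hβ0 : 0 ≤ β := by linarith
  have D : H N / 16 ≤ Phi β C b - 4 * β * K - Phi β C u := by
    have h1 : Phi β C b - Phi β C u = β * ((H b - H u) * (H b + H u)) := by
      unfold Phi
      ring
    have h2 : 1 / 4 * (H N - 2) ≤ (H b - H u) * (H b + H u) :=
      mul_le_mul d1 (by linarith) (by linarith) (by linarith)
    have h3 : β * (1 / 4 * (H N - 2)) ≤ β * ((H b - H u) * (H b + H u)) :=
      mul_le_mul_of_nonneg_left h2 hβ0
    have h4 : 4 * β * K ≤ β * (H N / 16) := by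
      calc 4 * β * K = 4 * β * (K : ℝ) := rfl
        _ ≤ 4 * β * (H N / 64) := mul_le_mul_of_nonneg_left hK1 (by linarith)
        _ = β * (H N / 16) := by ring
    have h5 : H N / 16 ≤ β * (H N / 8) := by nlinarith
    have h6 : β * (H N / 8) ≤ β * (1 / 4 * (H N - 2) - H N / 16) :=
      mul_le_mul_of_nonneg_left (by linarith) hβ0
    have h7 : β * (1 / 4 * (H N - 2) - H N / 16) = β * (1 / 4 * (H N - 2)) - β * (H N / 16) := by
      ring
    linarith
  have hg := gain (C := C) hβ0 hn1 hs hM (K := K) (a := i) (b := b) (by omega) (by omega) (by omega)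
    c1 c2 (by linarith)
  refine le_trans ?_ hg
  -- the probability
  have hHi : 0 < H i := by linarith
  set y := (K : ℝ) * (1 / (4 * H i)) with hy
  have y1 : 1 / 512 ≤ y := by
    have h1 : H N / 128 ≤ K := by linarith
    have h2 : 1 / (4 * H N) ≤ 1 / (4 * H i) := by
      apply one_div_le_one_div_of_le (by positivity)
      linarith
    have h3 : H N / 128 * (1 / (4 * H N)) ≤ y := by
      rw [hy]
      apply mul_le_mul h1 h2 (by positivity) (by positivity)
    refine le_trans (le_of_eq ?_) h3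
    field_simp
    norm_num
  have y2 : y ≤ 1 := by
    rw [hy, mul_one_div, div_le_one (by positivity)]
    linarith
  have p1 : (1 - 1 / (4 * H i)) ^ K ≤ Real.exp (-y) := by
    have h1 : 1 - 1 / (4 * H i) ≤ Real.exp (-(1 / (4 * H i))) := Real.one_sub_le_exp_neg _
    have h2 : 0 ≤ 1 - 1 / (4 * H i) := by
      have : 1 / (4 * H i) ≤ 1 := by
        rw [div_le_one (by positivity)]
        linarith
      linarith
    refine (pow_le_pow_left₀ h2 h1 K).trans (le_of_eq ?_)
    rw [← Real.exp_nat_mul]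
    congr 1
    rw [hy]
    ring
  have p2 := prob_ge (by linarith : 0 ≤ y) y2
  have p3 : 1 / 1024 ≤ 1 - (1 - 1 / (4 * H i)) ^ K := by linarith
  have p4 : 1 / 1024 * (H N / 16) ≤ (1 - (1 - 1 / (4 * H i)) ^ K) *
      (Phi β C b - 4 * β * K - Phi β C u) :=
    mul_le_mul p3 D (by linarith) (by linarith)
  have p5 : 2 * β * s * K ≤ (1 + 3 / 10 ^ 6) * K :=
    mul_le_mul_of_nonneg_right hβs (by positivity)
  have p6 : (3 : ℝ) / 10 ^ 6 * K ≤ 3 / 10 ^ 6 * (H N / 64) :=
    mul_le_mul_of_nonneg_left hK1 (by norm_num)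
  linarith

lemma M_nonneg (N : ℕ) : 0 ≤ M N := by
  unfold M
  rw [← E1_const N 0]
  exact E1_mono fun t => by positivity

/-- **Lower bound of the mean height** -/
theorem lower : ∃ C : ℝ, ∀ N : ℕ, (1 + 1 / 10 ^ 6) / (2 * s0) * H N ^ 2 - C ≤ M N := by
  set δ : ℝ := 1 / 10 ^ 6 with hδ
  have hs0 := s0_pos
  set β : ℝ := (1 + δ) / (2 * s0) with hβd
  have hδ0 : 0 < δ := by rw [hδ]; norm_num
  have hβ : 1 / 2 ≤ β := by
    rw [hβd, div_le_div_iff₀ (by norm_num) (by positivity)]
    have := s0_le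
    linarith
  have hβ0 : 0 ≤ β := by linarith
  have hlt : s0 < s0 * (1 + δ) := by nlinarith
  obtain ⟨n1, hn1⟩ := eventually_atTop.mp
    (sg_tendsto.eventually (eventually_le_nhds (show Real.pi ^ 2 / 12 < s0 * (1 + δ) from hlt)))
  have hβs : 2 * β * (s0 * (1 + δ)) ≤ 1 + 3 / 10 ^ 6 := by
    have e : 2 * β * (s0 * (1 + δ)) = (1 + δ) ^ 2 := by
      rw [hβd]
      field_simp
    rw [e, hδ]
    norm_num
  set n2 := max n1 1 with hn2
  have hs : ∀ u, n2 ≤ u → sg u ≤ s0 * (1 + δ) := fun u hu => hn1 u (by omega)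
  have hlogt : Tendsto (fun N : ℕ => Real.log (N : ℝ)) atTop atTop :=
    Real.tendsto_log_atTop.comp tendsto_natCast_atTop_atTop
  have hsqt : Tendsto (fun N : ℕ => √(N : ℝ)) atTop atTop :=
    Real.tendsto_sqrt_atTop.comp tendsto_natCast_atTop_atTop
  obtain ⟨N0, hN0⟩ := eventually_atTop.mp ((eventually_ge_atTop 200).and
    ((eventually_ge_atTop n2).and ((H_tendsto_atTop.eventually_ge_atTop 128).and
      ((hlogt.eventually_ge_atTop 1).and (hsqt.eventually_ge_atTop (4 * ((n2 : ℝ) + 2)))))))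
  set C : ℝ := β * H N0 ^ 2 with hC
  refine ⟨C, fun N => ?_⟩
  change Phi β C N ≤ M N
  induction N using Nat.strong_induction_on with
  | _ N ih =>
    rcases Nat.lt_or_ge N N0 with h | h
    · have h1 : Phi β C N ≤ 0 := by
        unfold Phi
        have h2 := H_mono h.le
        have h3 := H_nonneg N
        have h4 : H N ^ 2 ≤ H N0 ^ 2 := pow_le_pow_left₀ h3 h2 2
        rw [hC]
        nlinarith
      exact h1.trans (M_nonneg N)
    · obtain ⟨g1, g2, g3, g4, g5⟩ := hN0 N h
      have hNpos : 1 ≤ N := by omega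
      have hHN : 0 < H N := by linarith
      rw [M_rec hNpos]
      have hterm : ∀ i ∈ range N, W N i * (1 + Phi β C (big N i)) +
          (if i ∈ Bal N then W N i * (6 / 10 ^ 5 * H N) else 0) ≤
          W N i * (1 + Z i (N - 1 - i)) := by
        intro i hi
        have hi' := mem_range.mp hi
        have hW := W_nonneg hi'
        split_ifs with hb
        · have h5 := gain_large hβ (by omega) hs hβs ih g1 g3 g4 g5 hb
          rw [← mul_add]
          exact mul_le_mul_of_nonneg_left (by linarith) hW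
        · rw [add_zero]
          refine mul_le_mul_of_nonneg_left ?_ hW
          have h5 := ih _ (big_lt hi')
          have h6 := Z_big (N := N) (i := i)
          linarith
      have hsum := sum_le_sum hterm
      rw [sum_add_distrib] at hsum
      have hBsub : Bal N ⊆ range N := by
        intro i hi
        unfold Bal at hi
        rw [Finset.mem_Icc] at hi
        rw [mem_range]
        omega
      have h7 : ∑ i ∈ range N, (if i ∈ Bal N then W N i * (6 / 10 ^ 5 * H N) else 0) =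
          (∑ i ∈ Bal N, W N i) * (6 / 10 ^ 5 * H N) := by
        rw [← sum_filter, sum_mul]
        congr 1
        ext i
        rw [mem_filter]
        exact ⟨fun h => h.2, fun h => ⟨hBsub h, h⟩⟩
      have h8 := Bal_mass (N := N) (by omega)
      have h9 : 6 / 10 ^ 6 ≤ (∑ i ∈ Bal N, W N i) * (6 / 10 ^ 5 * H N) := by
        refine le_trans (le_of_eq ?_) (mul_le_mul_of_nonneg_right h8 (by positivity))
        field_simp
      have h10 : ∑ i ∈ range N, W N i * (1 + Phi β C (big N i)) = 1 + P (Phi β C) N := by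
        rw [P_def]
        nth_rewrite 2 [← W_sum N hNpos]
        rw [← sum_add_distrib]
        exact sum_congr rfl fun i _ => by ring
      have h11 := P_Phi (C := C) hβ0 hNpos
      have h12 : 2 * β * sg N ≤ 1 + 3 / 10 ^ 6 :=
        (mul_le_mul_of_nonneg_left (hs N g2) (by linarith)).trans hβs
      rw [h7, h10] at hsum
      linarith

end Pool.Agent.W2helper77.CB
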