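import Pool.Agent.R982.CBSTree

/-!
# The height of the critical beta-splitting tree: recursions, and the upper bound
-/

set_option autoImplicit false

namespace Pool.Agent.W2helper77.CB

open BinaryTree Finset Filter Topology Pool.Agent.R982.CBS

/-- the height -/
def ht : BinaryTree Unit → ℕ
  | .nil => 0
  | .node _ l r => 1 + max (ht l) (ht r)

/-- expectation over the trees with `N` splits -/
noncomputable def E1 (N : ℕ) (F : BinaryTree Unit → ℝ) : ℝ :=
  ∑ t ∈ treesOfNumNodesEq N, treeProb t * F t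

/-- the mean height -/
noncomputable def M (N : ℕ) : ℝ := E1 N (fun t => (ht t : ℝ))

lemma treeProb_nonneg (t : BinaryTree Unit) : 0 ≤ treeProb t := by
  induction t with
  | nil => simp [treeProb]
  | node a l r ihl ihr =>
    rw [treeProb]
    have h1 : 1 ≤ l.numLeaves := by rw [numLeaves_eq_numNodes_succ]; omega
    have h2 : 1 ≤ r.numLeaves := by rw [numLeaves_eq_numNodes_succ]; omega
    obtain ⟨i, hi⟩ : ∃ i, l.numLeaves = i + 1 := ⟨l.numLeaves - 1, by omega⟩
    obtain ⟨j, hj⟩ : ∃ j, r.numLeaves = j + 1 := ⟨r.numLeaves - 1, by omega⟩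
    rw [hi, hj, show i + 1 + (j + 1) = (i + j + 1) + 1 by ring, q_eq_W (by omega)]
    exact mul_nonneg (W_nonneg (by omega)) (mul_nonneg ihl ihr)

lemma E1_mono {N : ℕ} {F G : BinaryTree Unit → ℝ} (h : ∀ t, F t ≤ G t) : E1 N F ≤ E1 N G :=
  sum_le_sum fun t _ => mul_le_mul_of_nonneg_left (h t) (treeProb_nonneg t)

lemma E1_const (N : ℕ) (c : ℝ) : E1 N (fun _ => c) = c := by
  unfold E1
  rw [← sum_mul, total_mass, one_mul]

lemma E1_add (N : ℕ) (F G : BinaryTree Unit → ℝ) :
    E1 N (fun t => F t + G t) = E1 N F + E1 N G := by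
  unfold E1
  rw [← sum_add_distrib]
  exact sum_congr rfl fun t _ => by ring

lemma E1_smul (N : ℕ) (c : ℝ) (F : BinaryTree Unit → ℝ) :
    E1 N (fun t => c * F t) = c * E1 N F := by
  unfold E1
  rw [mul_sum]
  exact sum_congr rfl fun t _ => by ring

lemma E1_sum {ι : Type*} (N : ℕ) (s : Finset ι) (F : ι → BinaryTree Unit → ℝ) :
    E1 N (fun t => ∑ i ∈ s, F i t) = ∑ i ∈ s, E1 N (F i) := by
  unfold E1
  rw [sum_comm]
  exact sum_congr rfl fun t _ => by rw [mul_sum]

lemma E1_succ {N : ℕ} (hN : 1 ≤ N) (F : BinaryTree Unit → ℝ) :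
    E1 N F = ∑ i ∈ range N, W N i *
      E1 i (fun l => E1 (N - 1 - i) (fun r => F (.node () l r))) := by
  unfold E1
  rw [sum_succ N hN]
  refine sum_congr rfl fun i _ => ?_
  congr 1
  refine sum_congr rfl fun l _ => ?_
  rw [mul_sum]
  exact sum_congr rfl fun r _ => by ring

lemma E1_comm (a b : ℕ) (F : BinaryTree Unit → BinaryTree Unit → ℝ) :
    E1 a (fun l => E1 b (fun r => F l r)) = E1 b (fun r => E1 a (fun l => F l r)) := by
  unfold E1
  simp_rw [mul_sum]
  rw [sum_comm]
  exact sum_congr rfl fun t _ => sum_congr rfl fun u _ => by ring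

/-- the size of the larger part -/
def big (N i : ℕ) : ℕ := max i (N - 1 - i)

lemma big_lt {N i : ℕ} (hi : i < N) : big N i < N := by
  unfold big
  rw [max_lt_iff]
  omega

lemma big_ge {N i : ℕ} (hi : i < N) : N + 1 ≤ 2 * (big N i + 1) := by
  unfold big
  have h1 := le_max_left i (N - 1 - i)
  have h2 := le_max_right i (N - 1 - i)
  omega

/-- the greedy kernel -/
noncomputable def P (f : ℕ → ℝ) (N : ℕ) : ℝ := ∑ i ∈ range N, W N i * f (big N i)

/-- one greedy step, for a monotone function of the height -/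
lemma greedy_step {N : ℕ} (hN : 1 ≤ N) {g : ℕ → ℝ} (hg : Monotone g) :
    P (fun k => E1 k (fun t => g (1 + ht t))) N ≤ E1 N (fun t => g (ht t)) := by
  rw [E1_succ hN]
  unfold P
  refine sum_le_sum fun i hi => ?_
  have hi' := mem_range.mp hi
  refine mul_le_mul_of_nonneg_left ?_ (W_nonneg hi')
  unfold big
  rcases le_total (N - 1 - i) i with h | h
  · rw [max_eq_left h]
    have : E1 i (fun t => g (1 + ht t)) =
        E1 i (fun l => E1 (N - 1 - i) (fun _ => g (1 + ht l))) := by
      simp only [E1_const]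
    show E1 i (fun t => g (1 + ht t)) ≤ _
    rw [this]
    exact E1_mono fun l => E1_mono fun r => hg (by rw [ht]; have := le_max_left (ht l) (ht r); omega)
  · rw [max_eq_right h]
    have : E1 (N - 1 - i) (fun t => g (1 + ht t)) =
        E1 i (fun _ => E1 (N - 1 - i) (fun r => g (1 + ht r))) := by
      rw [E1_const]
    show E1 (N - 1 - i) (fun t => g (1 + ht t)) ≤ _
    rw [this]
    exact E1_mono fun l => E1_mono fun r => hg (by rw [ht]; have := le_max_right (ht l) (ht r); omega)

/-- the mean of the maximum of the heights of two independent trees -/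
noncomputable def Z (a b : ℕ) : ℝ := E1 a (fun l => E1 b (fun r => ((max (ht l) (ht r) : ℕ) : ℝ)))

lemma M_rec {N : ℕ} (hN : 1 ≤ N) : M N = ∑ i ∈ range N, W N i * (1 + Z i (N - 1 - i)) := by
  unfold M
  rw [E1_succ hN]
  refine sum_congr rfl fun i _ => ?_
  congr 1
  have h : ∀ l, E1 (N - 1 - i) (fun r => ((ht (.node () l r) : ℕ) : ℝ)) =
      1 + E1 (N - 1 - i) (fun r => ((max (ht l) (ht r) : ℕ) : ℝ)) := by
    intro l
    have e : ∀ r, ((ht (.node () l r) : ℕ) : ℝ) = 1 + ((max (ht l) (ht r) : ℕ) : ℝ) := by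
      intro r
      rw [ht]
      push_cast
      ring
    simp only [e]
    rw [E1_add, E1_const]
  simp only [h]
  rw [E1_add, E1_const]
  rfl

lemma Z_left (a b : ℕ) : M a ≤ Z a b := by
  unfold M Z
  refine E1_mono fun l => ?_
  rw [← E1_const b (ht l : ℝ)]
  exact E1_mono fun r => by exact_mod_cast le_max_left _ _

lemma Z_symm (a b : ℕ) : Z a b = Z b a := by
  unfold Z
  rw [E1_comm]
  simp only [max_comm]

lemma Z_right (a b : ℕ) : M b ≤ Z a b := by
  rw [Z_symm]
  exact Z_left b a

lemma Z_big {N i : ℕ} : M (big N i) ≤ Z i (N - 1 - i) := by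
  unfold big
  rcases le_total (N - 1 - i) i with h | h
  · rw [max_eq_left h]
    exact Z_left _ _
  · rw [max_eq_right h]
    exact Z_right _ _

/-- the kernel in two variables -/
noncomputable def PP (Ψ : ℕ → ℕ → ℝ) (a b : ℕ) : ℝ :=
  ∑ i ∈ range a, W a i * ∑ j ∈ range b, W b j * Ψ (big a i) (big b j)

/-- two independent greedy steps -/
theorem Z_step {a b : ℕ} (ha : 1 ≤ a) (hb : 1 ≤ b) : 1 + PP Z a b ≤ Z a b := by
  have hmono : ∀ b : ℕ, Monotone (fun h : ℕ => E1 b (fun r => ((max h (ht r) : ℕ) : ℝ))) := by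
    intro b h h' hh
    exact E1_mono fun r => by exact_mod_cast max_le_max_right _ hh
  have h1 := greedy_step ha (hmono b)
  have h2 : ∀ k : ℕ, ∀ h : ℕ, 1 + ∑ j ∈ range b, W b j *
      E1 (big b j) (fun r => ((max h (ht r) : ℕ) : ℝ)) ≤
        E1 b (fun r => ((max (1 + h) (ht r) : ℕ) : ℝ)) := by
    intro k h
    have hm : Monotone (fun x : ℕ => ((max (1 + h) x : ℕ) : ℝ)) := by
      intro x y hxy
      show ((max (1 + h) x : ℕ) : ℝ) ≤ ((max (1 + h) y : ℕ) : ℝ)
      exact_mod_cast max_le_max_left _ hxy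
    have h3 := greedy_step hb hm
    refine le_trans (le_of_eq ?_) h3
    unfold P
    nth_rewrite 1 [← W_sum b hb]
    rw [← sum_add_distrib]
    refine sum_congr rfl fun j _ => ?_
    rw [← mul_one (W b j), mul_assoc, mul_assoc, ← mul_add]
    congr 1
    rw [one_mul, one_mul]
    nth_rewrite 1 [← E1_const (big b j) 1]
    rw [← E1_add]
    congr 1
    funext r
    rw [max_add_add_left]
    push_cast
    ring
  refine le_trans ?_ h1
  unfold P PP
  rw [← W_sum a ha, ← sum_add_distrib]
  refine sum_le_sum fun i hi => ?_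
  have hi' := mem_range.mp hi
  rw [← mul_one_add]
  refine mul_le_mul_of_nonneg_left ?_ (W_nonneg hi')
  have h4 : E1 (big a i) (fun l => 1 + ∑ j ∈ range b, W b j *
      E1 (big b j) (fun r => ((max (ht l) (ht r) : ℕ) : ℝ))) =
        1 + ∑ j ∈ range b, W b j * Z (big a i) (big b j) := by
    rw [E1_add, E1_const, E1_sum]
    simp only [E1_smul]
    rfl
  rw [← h4]
  exact E1_mono fun l => h2 0 (ht l)

/-! ### The upper bound -/

/-- the exponential sum of the leaf depths -/
noncomputable def X (lam : ℝ) : BinaryTree Unit → ℝ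
  | .nil => 1
  | .node _ l r => lam * (X lam l + X lam r)

lemma X_pos {lam : ℝ} (h : 1 ≤ lam) (t : BinaryTree Unit) : 0 < X lam t := by
  induction t with
  | nil => simp [X]
  | node a l r ihl ihr =>
    rw [X]
    have : 0 < lam := by linarith
    positivity

lemma pow_ht_le {lam : ℝ} (h : 1 ≤ lam) (t : BinaryTree Unit) : lam ^ ht t ≤ X lam t := by
  induction t with
  | nil => simp [X, ht]
  | node a l r ihl ihr =>
    rw [X, ht, pow_add, pow_one]
    have hl := X_pos h l
    have hr := X_pos h r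
    refine mul_le_mul_of_nonneg_left ?_ (by linarith)
    rcases le_total (ht l) (ht r) with h1 | h1
    · rw [max_eq_right h1]
      linarith
    · rw [max_eq_left h1]
      linarith

lemma W_split {N i : ℕ} (hi : i < N) :
    W N i * (((i : ℝ) + 1) ^ 2 + ((N : ℝ) - i) ^ 2) =
      ((N : ℝ) + 1) ^ 2 * W N i - ((N : ℝ) + 1) / H N := by
  have hH := H_pos (by omega : 1 ≤ N)
  have h5 : (0 : ℝ) < (N : ℝ) - i := by
    have : (i : ℝ) < N := by exact_mod_cast hi
    linarith
  unfold W
  field_simp
  ring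

theorem EX_le {n : ℕ} (hn : 1 ≤ n) : ∀ N : ℕ, N ≤ n →
    E1 N (X (1 + 1 / (2 * H n))) ≤ ((N : ℝ) + 1) ^ 2 := by
  intro N
  induction N using Nat.strong_induction_on with
  | _ N ih =>
    intro hNn
    rcases Nat.eq_zero_or_pos N with h0 | hN
    · subst h0
      simp [E1, treeProb, X]
    · have hHn := H_pos hn
      have hH := H_pos hN
      have hmono := H_mono hNn
      set lam := 1 + 1 / (2 * H n) with hlam
      have hl1 : 1 ≤ lam := by
        rw [hlam]
        have : 0 < 1 / (2 * H n) := by positivity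
        linarith
      rw [E1_succ hN]
      have h1 : ∀ i ∈ range N, W N i * E1 i (fun l => E1 (N - 1 - i) (fun r =>
          X lam (.node () l r))) ≤
          lam * (((N : ℝ) + 1) ^ 2 * W N i - ((N : ℝ) + 1) / H N) := by
        intro i hi
        have hi' := mem_range.mp hi
        have e1 : E1 i (fun l => E1 (N - 1 - i) (fun r => X lam (.node () l r))) =
            lam * (E1 i (X lam) + E1 (N - 1 - i) (X lam)) := by
          have : ∀ l, E1 (N - 1 - i) (fun r => X lam (.node () l r)) =
              lam * (X lam l + E1 (N - 1 - i) (X lam)) := by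
            intro l
            simp only [X]
            rw [E1_smul, E1_add, E1_const]
          simp only [this]
          rw [E1_smul, E1_add, E1_const]
        have a1 := ih i hi' (by omega)
        have a2 := ih (N - 1 - i) (by omega) (by omega)
        have e2 : (((N - 1 - i : ℕ) : ℝ) + 1) = (N : ℝ) - i := by
          rw [Nat.cast_sub (by omega), Nat.cast_sub (by omega)]
          push_cast
          ring
        rw [e2] at a2
        rw [e1, ← W_split hi']
        have hW := W_nonneg hi'
        calc W N i * (lam * (E1 i (X lam) + E1 (N - 1 - i) (X lam)))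
            = lam * (W N i * (E1 i (X lam) + E1 (N - 1 - i) (X lam))) := by ring
          _ ≤ _ := mul_le_mul_of_nonneg_left (mul_le_mul_of_nonneg_left (by linarith) hW)
              (by linarith)
      refine (sum_le_sum h1).trans ?_
      rw [← mul_sum, sum_sub_distrib, ← mul_sum, W_sum N hN, sum_const, card_range, nsmul_eq_mul]
      have hN1 : (1 : ℝ) ≤ N := by exact_mod_cast hN
      have k1 : 1 / (2 * H n) ≤ 1 / (2 * H N) := by
        apply one_div_le_one_div_of_le (by positivity)
        linarith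
      have k2 : lam ≤ 1 + 1 / (2 * H N) := by rw [hlam]; linarith
      have k3 : (0 : ℝ) ≤ ((N : ℝ) + 1) ^ 2 * 1 - N * (((N : ℝ) + 1) / H N) := by
        have hH1 := H_one_le hN
        have : (N : ℝ) * (((N : ℝ) + 1) / H N) ≤ N * ((N : ℝ) + 1) := by
          apply mul_le_mul_of_nonneg_left _ (by linarith)
          exact div_le_self (by linarith) hH1
        nlinarith
      refine (mul_le_mul_of_nonneg_right k2 k3).trans ?_
      have k4 : (1 + 1 / (2 * H N)) * (((N : ℝ) + 1) ^ 2 * 1 - N * (((N : ℝ) + 1) / H N)) =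
          ((N : ℝ) + 1) ^ 2 - ((N : ℝ) + 1) / (2 * H N) * ((N : ℝ) - 1 + N / H N) := by
        field_simp
        ring
      rw [k4]
      have k5 : 0 ≤ ((N : ℝ) + 1) / (2 * H N) * ((N : ℝ) - 1 + N / H N) := by
        apply mul_nonneg (by positivity)
        have : 0 ≤ (N : ℝ) / H N := by positivity
        linarith
      linarith

lemma log_le_H (N : ℕ) : Real.log ((N : ℝ) + 1) ≤ H N := by
  rw [← H_eq_harmonic]
  exact_mod_cast log_add_one_le_harmonic N

/-- **Upper bound of the mean height** -/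
theorem M_le {n : ℕ} (hn : 1 ≤ n) : M n ≤ 8 * H n ^ 2 := by
  have hH := H_pos hn
  have hH1 := H_one_le hn
  set lam := 1 + 1 / (2 * H n) with hlam
  have hy0 : 0 < 1 / (2 * H n) := by positivity
  have hy1 : 1 / (2 * H n) ≤ 1 / 2 := by
    apply one_div_le_one_div_of_le (by norm_num)
    linarith
  have hl1 : 1 ≤ lam := by rw [hlam]; linarith
  have hS : (0 : ℝ) < ((n : ℝ) + 1) ^ 2 := by positivity
  have hpt : ∀ t : BinaryTree Unit, Real.log lam * (ht t : ℝ) ≤
      (2 * Real.log ((n : ℝ) + 1) - 1) + (1 / ((n : ℝ) + 1) ^ 2) * X lam t := by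
    intro t
    have h1 : Real.log lam * (ht t : ℝ) = Real.log (lam ^ ht t) := by
      rw [Real.log_pow]
      ring
    have hp : 0 < lam ^ ht t := by positivity
    have h2 := Real.log_le_sub_one_of_pos (div_pos hp hS)
    rw [Real.log_div hp.ne' hS.ne', Real.log_pow] at h2
    have h3 : lam ^ ht t / ((n : ℝ) + 1) ^ 2 ≤ (1 / ((n : ℝ) + 1) ^ 2) * X lam t := by
      rw [div_eq_mul_one_div, mul_comm]
      exact mul_le_mul_of_nonneg_left (pow_ht_le hl1 t) (by positivity)
    rw [h1, Real.log_pow]
    have h4 : Real.log (((n : ℝ) + 1) ^ 2) = 2 * Real.log ((n : ℝ) + 1) := by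
      rw [Real.log_pow]
      push_cast
      ring
    rw [h4] at h2
    linarith
  have h1 : Real.log lam * M n ≤ 2 * Real.log ((n : ℝ) + 1) := by
    unfold M
    rw [← E1_smul]
    refine (E1_mono hpt).trans ?_
    rw [E1_add, E1_const, E1_smul]
    have h2 := EX_le hn n le_rfl
    have h3 : 1 / ((n : ℝ) + 1) ^ 2 * E1 n (X lam) ≤ 1 := by
      rw [div_mul_eq_mul_div, one_mul, div_le_one hS]
      exact h2
    linarith
  have h2 : 1 / (4 * H n) ≤ Real.log lam := by
    have h3 := Real.one_sub_inv_le_log_of_pos (show 0 < lam by linarith)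
    refine le_trans ?_ h3
    rw [hlam]
    have e : 1 - (1 + 1 / (2 * H n))⁻¹ = 1 / (2 * H n + 1) := by
      field_simp
      ring
    rw [e]
    apply one_div_le_one_div_of_le (by positivity)
    linarith
  have h3 := log_le_H n
  have hM0 : 0 ≤ M n := by
    unfold M
    rw [← E1_const n 0]
    exact E1_mono fun t => by positivity
  have h4 : 1 / (4 * H n) * M n ≤ 2 * H n :=
    (mul_le_mul_of_nonneg_right h2 hM0).trans (h1.trans (by linarith))
  have h5 : M n = 4 * H n * (1 / (4 * H n) * M n) := by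
    field_simp
  rw [h5]
  calc 4 * H n * (1 / (4 * H n) * M n) ≤ 4 * H n * (2 * H n) :=
        mul_le_mul_of_nonneg_left h4 (by positivity)
    _ = _ := by ring

end Pool.Agent.W2helper77.CB
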