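import Pool.Agent.W2helper77.CB.Height

/-!
# The mean height exceeds the mean length of the greedy path by a constant factor
-/

set_option autoImplicit false

namespace Pool.Agent.W2helper77.CB

open BinaryTree Finset Filter Topology Pool.Agent.R982.CBS

/-! ### The kernels -/

lemma P_def (f : ℕ → ℝ) (N : ℕ) : P f N = ∑ i ∈ range N, W N i * f (big N i) := rfl

lemma P_mono {f g : ℕ → ℝ} {N : ℕ} (h : ∀ k, k < N → N + 1 ≤ 2 * (k + 1) → f k ≤ g k) :
    P f N ≤ P g N :=
  sum_le_sum fun i hi => mul_le_mul_of_nonneg_left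
    (h _ (big_lt (mem_range.mp hi)) (big_ge (mem_range.mp hi))) (W_nonneg (mem_range.mp hi))

lemma P_congr {f g : ℕ → ℝ} {N : ℕ} (h : ∀ k, k < N → N + 1 ≤ 2 * (k + 1) → f k = g k) :
    P f N = P g N :=
  sum_congr rfl fun i hi => by
    rw [h _ (big_lt (mem_range.mp hi)) (big_ge (mem_range.mp hi))]

lemma P_sub_const {N : ℕ} (hN : 1 ≤ N) (f : ℕ → ℝ) (c : ℝ) :
    P (fun k => f k - c) N = P f N - c := by
  unfold P
  simp only [mul_sub]
  rw [sum_sub_distrib, ← sum_mul, W_sum N hN, one_mul]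

lemma P_const_sub {N : ℕ} (hN : 1 ≤ N) (f : ℕ → ℝ) (c : ℝ) :
    P (fun k => c - f k) N = c - P f N := by
  unfold P
  simp only [mul_sub]
  rw [sum_sub_distrib, ← sum_mul, W_sum N hN, one_mul]

lemma PP_mono {Ψ Ψ' : ℕ → ℕ → ℝ} {a b : ℕ} (h : ∀ u v, u < a → v < b → a + 1 ≤ 2 * (u + 1) →
    b + 1 ≤ 2 * (v + 1) → Ψ u v ≤ Ψ' u v) : PP Ψ a b ≤ PP Ψ' a b := by
  unfold PP
  refine sum_le_sum fun i hi => mul_le_mul_of_nonneg_left (sum_le_sum fun j hj =>
    mul_le_mul_of_nonneg_left ?_ (W_nonneg (mem_range.mp hj))) (W_nonneg (mem_range.mp hi))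
  exact h _ _ (big_lt (mem_range.mp hi)) (big_lt (mem_range.mp hj)) (big_ge (mem_range.mp hi))
    (big_ge (mem_range.mp hj))

lemma PP_congr {Ψ Ψ' : ℕ → ℕ → ℝ} {a b : ℕ} (h : ∀ u v, u < a → v < b → a + 1 ≤ 2 * (u + 1) →
    b + 1 ≤ 2 * (v + 1) → Ψ u v = Ψ' u v) : PP Ψ a b = PP Ψ' a b :=
  le_antisymm (PP_mono fun u v h1 h2 h3 h4 => (h u v h1 h2 h3 h4).le)
    (PP_mono fun u v h1 h2 h3 h4 => (h u v h1 h2 h3 h4).ge)

lemma PP_tensor {a b : ℕ} (hb : 1 ≤ b) (f g h : ℕ → ℝ) :
    PP (fun u v => f u + g u * h v) a b = P f a + P g a * P h b := by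
  unfold PP P
  rw [sum_mul, ← sum_add_distrib]
  refine sum_congr rfl fun i _ => ?_
  have : ∑ j ∈ range b, W b j * (f (big a i) + g (big a i) * h (big b j)) =
      f (big a i) + g (big a i) * ∑ j ∈ range b, W b j * h (big b j) := by
    simp only [mul_add]
    rw [sum_add_distrib, ← sum_mul, W_sum b hb, one_mul, mul_sum]
    congr 1
    exact sum_congr rfl fun j _ => by ring
  rw [this]
  ring

lemma PP_sub_const {a b : ℕ} (ha : 1 ≤ a) (hb : 1 ≤ b) (Ψ : ℕ → ℕ → ℝ) (c : ℝ) :
    PP (fun u v => Ψ u v - c) a b = PP Ψ a b - c := by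
  unfold PP
  simp only [mul_sub]
  have : ∀ i, ∑ j ∈ range b, (W b j * Ψ (big a i) (big b j) - W b j * c) =
      (∑ j ∈ range b, W b j * Ψ (big a i) (big b j)) - c := by
    intro i
    rw [sum_sub_distrib, ← sum_mul, W_sum b hb, one_mul]
  simp only [this, mul_sub]
  rw [sum_sub_distrib, ← sum_mul, W_sum a ha, one_mul]

/-- `K` independent greedy steps -/
theorem Z_iter {N : ℕ} {Ψ : ℕ → ℕ → ℝ} (h : ∀ u v, u < N → v < N → Ψ u v ≤ Z u v) :
    ∀ K a b : ℕ, a < N → b < N → 2 ^ K ≤ a + 1 → 2 ^ K ≤ b + 1 →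
      (K : ℝ) + (PP^[K] Ψ) a b ≤ Z a b := by
  intro K
  induction K with
  | zero =>
    intro a b ha hb _ _
    simpa using h a b ha hb
  | succ K ih =>
    intro a b ha hb h1 h2
    have hp : 1 ≤ 2 ^ K := Nat.one_le_two_pow
    rw [pow_succ] at h1 h2
    have h3 : PP (PP^[K] Ψ) a b ≤ PP (fun u v => Z u v - K) a b := by
      refine PP_mono fun u v hu hv hu' hv' => ?_
      have := ih u v (by omega) (by omega) (by omega) (by omega)
      linarith
    rw [PP_sub_const (by omega) (by omega)] at h3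
    have h4 := Z_step (a := a) (b := b) (by omega) (by omega)
    rw [Function.iterate_succ_apply']
    push_cast
    linarith

theorem PP_iter (f g h : ℕ → ℝ) : ∀ K a b : ℕ, 2 ^ K ≤ a + 1 → 2 ^ K ≤ b + 1 →
    (PP^[K] (fun u v => f u + g u * h v)) a b =
      (P^[K] f) a + (P^[K] g) a * (P^[K] h) b := by
  intro K
  induction K with
  | zero => intro a b _ _; rfl
  | succ K ih =>
    intro a b h1 h2
    have hp : 1 ≤ 2 ^ K := Nat.one_le_two_pow
    rw [pow_succ] at h1 h2
    rw [Function.iterate_succ_apply', Function.iterate_succ_apply', Function.iterate_succ_apply',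
      Function.iterate_succ_apply', ← PP_tensor (by omega)]
    exact PP_congr fun u v _ _ h3 h4 => ih u v (by omega) (by omega)

lemma PP_iter_mono {Ψ Ψ' : ℕ → ℕ → ℝ} (h : ∀ u v, Ψ u v ≤ Ψ' u v) : ∀ K a b : ℕ,
    (PP^[K] Ψ) a b ≤ (PP^[K] Ψ') a b := by
  intro K
  induction K with
  | zero => intro a b; exact h a b
  | succ K ih =>
    intro a b
    rw [Function.iterate_succ_apply', Function.iterate_succ_apply']
    exact PP_mono fun u v _ _ _ _ => ih u v

lemma P_iter_sub_const (f : ℕ → ℝ) (c : ℝ) : ∀ K a : ℕ, 2 ^ K ≤ a + 1 →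
    (P^[K] (fun k => f k - c)) a = (P^[K] f) a - c := by
  intro K
  induction K with
  | zero => intro a _; rfl
  | succ K ih =>
    intro a h1
    have hp : 1 ≤ 2 ^ K := Nat.one_le_two_pow
    rw [pow_succ] at h1
    rw [Function.iterate_succ_apply', Function.iterate_succ_apply', ← P_sub_const (by omega)]
    exact P_congr fun k _ h2 => ih k (by omega)

lemma P_iter_const_sub (f : ℕ → ℝ) (c : ℝ) : ∀ K a : ℕ, 2 ^ K ≤ a + 1 →
    (P^[K] (fun k => c - f k)) a = c - (P^[K] f) a := by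
  intro K
  induction K with
  | zero => intro a _; rfl
  | succ K ih =>
    intro a h1
    have hp : 1 ≤ 2 ^ K := Nat.one_le_two_pow
    rw [pow_succ] at h1
    rw [Function.iterate_succ_apply', Function.iterate_succ_apply', ← P_const_sub (by omega)]
    exact P_congr fun k _ h2 => ih k (by omega)

/-! ### Drift -/

/-- the drift constant -/
noncomputable def sg (N : ℕ) : ℝ := H2 N - H2 (N / 2) / 2

lemma sg_le (N : ℕ) : sg N ≤ 2 := by
  have h1 := H2_le_two N
  have h2 : 0 ≤ H2 (N / 2) := by rw [← H2_zero]; exact H2_mono (Nat.zero_le _)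
  unfold sg
  linarith

lemma sg_tendsto : Tendsto sg atTop (𝓝 (Real.pi ^ 2 / 12)) := by
  have h1 : Tendsto (fun N : ℕ => H2 (N / 2)) atTop (𝓝 (Real.pi ^ 2 / 6)) :=
    H2_tendsto.comp (Nat.tendsto_div_const_atTop (by norm_num))
  have h2 := H2_tendsto.sub (h1.div_const 2)
  have e : Real.pi ^ 2 / 12 = Real.pi ^ 2 / 6 - Real.pi ^ 2 / 6 / 2 := by ring
  rw [e]
  exact h2

/-- the comparison function -/
noncomputable def Phi (β C : ℝ) (N : ℕ) : ℝ := β * H N ^ 2 - C

lemma Phi_mono {β C : ℝ} (hβ : 0 ≤ β) {u v : ℕ} (h : u ≤ v) : Phi β C u ≤ Phi β C v := by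
  unfold Phi
  have h1 := H_mono h
  have h2 := H_nonneg u
  have h3 : H u ^ 2 ≤ H v ^ 2 := pow_le_pow_left₀ h2 h1 2
  nlinarith

lemma P_Phi {β C : ℝ} (hβ : 0 ≤ β) {N : ℕ} (hN : 1 ≤ N) :
    Phi β C N - 2 * β * sg N ≤ P (Phi β C) N := by
  have hH := H_pos hN
  have hd := chain_G.drift N hN
  have h1 : ∀ i ∈ range N, W N i * (Phi β C N) - 2 * β * H N * (W N i * (H N - H (big N i))) ≤
      W N i * Phi β C (big N i) := by
    intro i hi
    have hi' := mem_range.mp hi
    have hW := W_nonneg hi'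
    have h2 : Phi β C N - 2 * β * H N * (H N - H (big N i)) ≤ Phi β C (big N i) := by
      unfold Phi
      nlinarith [mul_nonneg hβ (sq_nonneg (H N - H (big N i)))]
    calc W N i * (Phi β C N) - 2 * β * H N * (W N i * (H N - H (big N i)))
        = W N i * (Phi β C N - 2 * β * H N * (H N - H (big N i))) := by ring
      _ ≤ _ := mul_le_mul_of_nonneg_left h2 hW
  have h2 := sum_le_sum h1
  rw [sum_sub_distrib, ← sum_mul, ← mul_sum, W_sum N hN, one_mul] at h2
  have h3 : ∑ i ∈ range N, W N i * (H N - H (big N i)) = sg N / H N := hd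
  rw [h3] at h2
  have h4 : 2 * β * H N * (sg N / H N) = 2 * β * sg N := by
    field_simp
  rw [h4] at h2
  exact h2

theorem P_iter_Phi {β C s : ℝ} (hβ : 0 ≤ β) {n1 : ℕ} (hn1 : 1 ≤ n1)
    (hs : ∀ u, n1 ≤ u → sg u ≤ s) : ∀ K a : ℕ, 2 ^ K * (n1 + 1) ≤ a + 1 →
      Phi β C a - 2 * β * s * K ≤ (P^[K] (Phi β C)) a := by
  intro K
  induction K with
  | zero => intro a _; simp
  | succ K ih =>
    intro a h1
    have hp : 1 ≤ 2 ^ K := Nat.one_le_two_pow
    have hp2 : (n1 + 1) ≤ 2 ^ K * (n1 + 1) := Nat.le_mul_of_pos_left _ (by positivity)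
    rw [pow_succ, mul_assoc, mul_comm 2, ← mul_assoc] at h1
    have ha : n1 ≤ a := by omega
    rw [Function.iterate_succ_apply']
    have h2 : P (fun k => Phi β C k - 2 * β * s * K) a ≤ P (P^[K] (Phi β C)) a := by
      refine P_mono fun k _ hk => ih k (by omega)
    rw [P_sub_const (by omega)] at h2
    have h3 := P_Phi (C := C) hβ (show 1 ≤ a by omega)
    have h4 := hs a ha
    have h5 : 2 * β * sg a ≤ 2 * β * s := mul_le_mul_of_nonneg_left h4 (by linarith)
    push_cast
    linarith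

/-! ### Masses -/

lemma W_ge {N i : ℕ} (hi : i < N) : 2 / (H N * ((N : ℝ) + 1)) ≤ W N i := by
  have hH := H_pos (by omega : 1 ≤ N)
  have h5 : (0 : ℝ) < (N : ℝ) - i := by
    have : (i : ℝ) < N := by exact_mod_cast hi
    linarith
  have h6 : (0 : ℝ) < (i : ℝ) + 1 := by positivity
  have e : W N i = (((i : ℝ) + 1) + ((N : ℝ) - i)) / (2 * H N * (((i : ℝ) + 1) * ((N : ℝ) - i))) := by
    unfold W
    field_simp
    ring
  rw [e, div_le_div_iff₀ (by positivity) (by positivity)]
  have h7 : ((i : ℝ) + 1) + ((N : ℝ) - i) = (N : ℝ) + 1 := by ring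
  have h8 : 4 * (((i : ℝ) + 1) * ((N : ℝ) - i)) ≤ ((N : ℝ) + 1) * ((N : ℝ) + 1) := by
    nlinarith [sq_nonneg (((i : ℝ) + 1) - ((N : ℝ) - i))]
  rw [h7]
  nlinarith

lemma mass_ge {N : ℕ} {S : Finset ℕ} (hS : S ⊆ range N) :
    (S.card : ℝ) * (2 / (H N * ((N : ℝ) + 1))) ≤ ∑ i ∈ S, W N i := by
  rw [← nsmul_eq_mul, ← sum_const]
  exact sum_le_sum fun i hi => W_ge (mem_range.mp (hS hi))

/-- the indices of the steps to size at most `3 a / 5` -/
noncomputable def low (a N : ℕ) : Finset ℕ := (range N).filter (fun i => 5 * big N i ≤ 3 * a)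

lemma low_mass {a N : ℕ} (hNa : N ≤ a) (hN : 10 ≤ N) : 1 / (4 * H a) ≤ ∑ i ∈ low a N, W N i := by
  have hH := H_pos (by omega : 1 ≤ N)
  have hHa := H_mono hNa
  have hsub : Finset.Icc ((2 * N + 4) / 5) (3 * N / 5) ⊆ low a N := by
    intro i hi
    rw [Finset.mem_Icc] at hi
    unfold low big
    rw [mem_filter, mem_range]
    have h1 : 2 * N ≤ 5 * i := by omega
    have h2 : 5 * i ≤ 3 * N := by omega
    refine ⟨by omega, ?_⟩
    rcases max_choice i (N - 1 - i) with h | h <;> rw [h] <;> omega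
  have hcard : ((N : ℝ) - 3) / 5 ≤ ((low a N).card : ℝ) := by
    have h1 := Finset.card_le_card hsub
    rw [Nat.card_Icc] at h1
    have h2 : N - 3 ≤ 5 * (low a N).card := by omega
    have h3 : ((N - 3 : ℕ) : ℝ) ≤ ((5 * (low a N).card : ℕ) : ℝ) := by exact_mod_cast h2
    rw [Nat.cast_sub (by omega)] at h3
    push_cast at h3
    linarith
  have h1 := mass_ge (N := N) (S := low a N) (by unfold low; exact filter_subset _ _)
  have hN1 : (10 : ℝ) ≤ N := by exact_mod_cast hN
  have hp : 0 < 2 / (H N * ((N : ℝ) + 1)) := by positivity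
  have h2 := mul_le_mul_of_nonneg_right hcard hp.le
  refine le_trans ?_ (h2.trans h1)
  have h3 : 1 / (4 * H a) ≤ 1 / (4 * H N) := by
    apply one_div_le_one_div_of_le (by positivity)
    linarith
  refine h3.trans ?_
  rw [div_mul_div_comm, div_le_div_iff₀ (by positivity) (by positivity)]
  nlinarith

/-- the probability to stay above `3 a / 5` during `K` steps -/
noncomputable def eta (a : ℕ) (u : ℕ) : ℝ := if 5 * u ≤ 3 * a then 0 else 1

theorem eta_iter {a : ℕ} (ha : 20 ≤ a) : ∀ K N : ℕ, N ≤ a → 0 ≤ (P^[K] (eta a)) N ∧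
    (P^[K] (eta a)) N ≤ (1 - 1 / (4 * H a)) ^ K ∧ (5 * N ≤ 3 * a → (P^[K] (eta a)) N = 0) := by
  have hH1 := H_one_le (by omega : 1 ≤ a)
  have hx0 : 0 ≤ 1 - 1 / (4 * H a) := by
    have : 1 / (4 * H a) ≤ 1 := by
      rw [div_le_one (by positivity)]
      linarith
    linarith
  intro K
  induction K with
  | zero =>
    intro N hN
    simp only [Function.iterate_zero, id, pow_zero]
    unfold eta
    split_ifs with h
    · exact ⟨le_rfl, zero_le_one, fun _ => rfl⟩
    · exact ⟨zero_le_one, le_rfl, fun h' => absurd h' h⟩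
  | succ K ih =>
    intro N hN
    rw [Function.iterate_succ_apply']
    have hnn : 0 ≤ P (P^[K] (eta a)) N := by
      rw [P_def]
      refine sum_nonneg fun i hi => mul_nonneg (W_nonneg (mem_range.mp hi)) ?_
      exact (ih _ ((big_lt (mem_range.mp hi)).le.trans hN)).1
    refine ⟨hnn, ?_, ?_⟩
    · rcases Nat.lt_or_ge (3 * a) (5 * N) with h | h
      · have h1 : P (P^[K] (eta a)) N = ∑ i ∈ (range N) \ low a N,
            W N i * (P^[K] (eta a)) (big N i) := by
          rw [P_def]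
          symm
          apply sum_subset sdiff_subset
          intro i hi hi'
          have h2 : i ∈ low a N := by
            by_contra h3
            exact hi' (mem_sdiff.mpr ⟨hi, h3⟩)
          have h3 : 5 * big N i ≤ 3 * a := (mem_filter.mp h2).2
          rw [(ih _ ((big_lt (mem_range.mp hi)).le.trans hN)).2.2 h3, mul_zero]
        rw [h1]
        have h2 : ∑ i ∈ (range N) \ low a N, W N i * (P^[K] (eta a)) (big N i) ≤
            ∑ i ∈ (range N) \ low a N, W N i * (1 - 1 / (4 * H a)) ^ K := by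
          refine sum_le_sum fun i hi => ?_
          have hi' := mem_range.mp (mem_sdiff.mp hi).1
          exact mul_le_mul_of_nonneg_left (ih _ ((big_lt hi').le.trans hN)).2.1 (W_nonneg hi')
        refine h2.trans ?_
        rw [← sum_mul]
        have h3 : ∑ i ∈ (range N) \ low a N, W N i ≤ 1 - 1 / (4 * H a) := by
          have h4 := sum_sdiff (f := fun i => W N i)
            (show low a N ⊆ range N by unfold low; exact filter_subset _ _)
          rw [W_sum N (by omega)] at h4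
          have h5 := low_mass hN (by omega)
          linarith
        rw [pow_succ, mul_comm]
        exact mul_le_mul_of_nonneg_left h3 (pow_nonneg hx0 _)
      · have h1 : P (P^[K] (eta a)) N = 0 := by
          rw [P_def]
          refine sum_eq_zero fun i hi => ?_
          have h2 := big_lt (mem_range.mp hi)
          rw [(ih _ (h2.le.trans hN)).2.2 (by omega), mul_zero]
        rw [h1]
        exact pow_nonneg hx0 _
    · intro h
      rw [P_def]
      refine sum_eq_zero fun i hi => ?_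
      have h2 := big_lt (mem_range.mp hi)
      rw [(ih _ (h2.le.trans hN)).2.2 (by omega), mul_zero]

/-! ### Differences of harmonic numbers -/

lemma H_sub_ge {u b : ℕ} (h : u ≤ b) (hb : 1 ≤ b) : ((b : ℝ) - u) / b ≤ H b - H u := by
  obtain ⟨k, rfl⟩ : ∃ k, b = u + k := ⟨b - u, by omega⟩
  have key : ∀ j : ℕ, j ≤ k → (j : ℝ) * (1 / ((u + k : ℕ) : ℝ)) ≤ H (u + j) - H u := by
    intro j
    induction j with
    | zero => intro _; simp
    | succ j ih =>
      intro hj
      have h1 := ih (by omega)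
      rw [← add_assoc, H_succ]
      have h2 : 1 / ((u + k : ℕ) : ℝ) ≤ 1 / (((u + j : ℕ) : ℝ) + 1) := by
        apply one_div_le_one_div_of_le (by positivity)
        have : u + j + 1 ≤ u + k := by omega
        exact_mod_cast this
      push_cast at h1 h2 ⊢
      linarith
  have h3 := key k le_rfl
  refine le_trans (le_of_eq ?_) h3
  push_cast
  ring

lemma H_sub_le {b N : ℕ} (h : b ≤ N) : H N - H b ≤ ((N : ℝ) - b) / (b + 1) := by
  obtain ⟨k, rfl⟩ : ∃ k, N = b + k := ⟨N - b, by omega⟩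
  have key : ∀ j : ℕ, H (b + j) - H b ≤ (j : ℝ) * (1 / ((b : ℝ) + 1)) := by
    intro j
    induction j with
    | zero => simp
    | succ j ih =>
      rw [← add_assoc, H_succ]
      have h2 : 1 / (((b + j : ℕ) : ℝ) + 1) ≤ 1 / ((b : ℝ) + 1) := by
        apply one_div_le_one_div_of_le (by positivity)
        push_cast
        linarith [(Nat.cast_nonneg j : (0 : ℝ) ≤ j)]
      push_cast at h2 ⊢
      linarith
  refine (key k).trans (le_of_eq ?_)
  push_cast
  ring

/-- the gain at a balanced split, from `K` steps of look-ahead -/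
theorem gain {β C s : ℝ} (hβ : 0 ≤ β) {n1 : ℕ} (hn1 : 1 ≤ n1) (hs : ∀ u, n1 ≤ u → sg u ≤ s)
    {N : ℕ} (hM : ∀ u, u < N → Phi β C u ≤ M u) {K a b : ℕ} (ha : a < N) (hb : b < N)
    (ha20 : 20 ≤ a) (h1 : 2 ^ K * (n1 + 1) ≤ a + 1) (h2 : 2 ^ K * 2 ≤ b + 1)
    (hD : 0 ≤ Phi β C b - 4 * β * K - Phi β C (3 * a / 5)) :
    (K : ℝ) + (Phi β C a - 2 * β * s * K) + (1 - (1 - 1 / (4 * H a)) ^ K) *
      (Phi β C b - 4 * β * K - Phi β C (3 * a / 5)) ≤ Z a b := by
  have hp : 1 ≤ 2 ^ K := Nat.one_le_two_pow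
  have hp2 : 2 ^ K ≤ 2 ^ K * (n1 + 1) := Nat.le_mul_of_pos_right _ (by omega)
  have hka : 2 ^ K ≤ a + 1 := by omega
  have hkb : 2 ^ K ≤ b + 1 := by omega
  set Fs := Phi β C (3 * a / 5) with hFs
  have hZ := Z_iter (N := N) (Ψ := fun u v => max (Phi β C u) (Phi β C v))
    (fun u v hu hv => max_le ((hM u hu).trans (Z_left _ _)) ((hM v hv).trans (Z_right _ _)))
    K a b ha hb hka hkb
  refine le_trans ?_ hZ
  have h3 : (PP^[K] (fun u v => Phi β C u + (1 - eta a u) * (Phi β C v - Fs))) a b ≤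
      (PP^[K] (fun u v => max (Phi β C u) (Phi β C v))) a b := by
    refine PP_iter_mono (fun u v => ?_) K a b
    unfold eta
    split_ifs with h
    · have h4 : Phi β C u ≤ Fs := Phi_mono hβ (by omega)
      refine le_trans ?_ (le_max_right _ _)
      linarith
    · refine le_trans ?_ (le_max_left _ _)
      linarith
  rw [PP_iter _ _ _ K a b hka hkb, P_iter_const_sub _ _ K a hka, P_iter_sub_const _ _ K b hkb] at h3
  have h4 := P_iter_Phi (C := C) hβ hn1 hs K a h1
  have h5 := P_iter_Phi (C := C) hβ le_rfl (fun u _ => sg_le u) K b h2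
  have h6 := (eta_iter ha20 K a le_rfl).2.1
  have h7 := (eta_iter ha20 K a le_rfl).1
  have hH1 := H_one_le (by omega : 1 ≤ a)
  have hx1 : (1 - 1 / (4 * H a)) ^ K ≤ 1 := by
    apply pow_le_one₀
    · have : 1 / (4 * H a) ≤ 1 := by
        rw [div_le_one (by positivity)]
        linarith
      linarith
    · have : 0 ≤ 1 / (4 * H a) := by positivity
      linarith
  have h8 : Phi β C b - 4 * β * K - Fs ≤ (P^[K] (Phi β C)) b - Fs := by linarith
  have h9 : (1 - (1 - 1 / (4 * H a)) ^ K) * (Phi β C b - 4 * β * K - Fs) ≤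
      (1 - (P^[K] (eta a)) a) * ((P^[K] (Phi β C)) b - Fs) :=
    mul_le_mul (by linarith) h8 hD (by linarith)
  linarith

end Pool.Agent.W2helper77.CB
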